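import Mathlib

set_option autoImplicit false

namespace Pool.Agent.Results.MP_8df793_gt.EllipseFamily

/-- `p` is an `α`-point of the convex curve bounding `K`: it is an interior point of `K`, and
`|x - p| ^ α + |y - p| ^ α` has the same value for every two points `x`, `y` of the boundary of
`K` such that the segment `[x, y]` passes through `p`. -/
def IsAlphaPoint (α : ℝ) (K : Set (EuclideanSpace ℝ (Fin 2))) (p : EuclideanSpace ℝ (Fin 2)) :
    Prop :=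
  p ∈ interior K ∧ ∃ c : ℝ, ∀ x ∈ frontier K, ∀ y ∈ frontier K, p ∈ segment ℝ x y →
    dist x p ^ α + dist y p ^ α = c

/-- The region bounded by the ellipse with semi-axes `a` and `a √((a² - s²) / (a² + s²))`,
centred at the origin. -/
def Reg (s a : ℝ) : Set (EuclideanSpace ℝ (Fin 2)) :=
  {z | (a ^ 2 - s ^ 2) * z 0 ^ 2 + (a ^ 2 + s ^ 2) * z 1 ^ 2 ≤ a ^ 2 * (a ^ 2 - s ^ 2)}

private def F (s a : ℝ) (z : EuclideanSpace ℝ (Fin 2)) : ℝ :=
  (a ^ 2 - s ^ 2) * z 0 ^ 2 + (a ^ 2 + s ^ 2) * z 1 ^ 2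

private lemma F_cont (s a : ℝ) : Continuous (F s a) := by
  unfold F
  fun_prop

private lemma pos1 {s a : ℝ} (hs : 0 < s) (ha : s < a) : 0 < a ^ 2 - s ^ 2 := by nlinarith

private lemma pos2 {s a : ℝ} (hs : 0 < s) (_ : s < a) : 0 < a ^ 2 + s ^ 2 := by positivity

private lemma reg_closed (s a : ℝ) : IsClosed (Reg s a) :=
  isClosed_le (F_cont s a) continuous_const

private lemma reg_convex {s a : ℝ} (hs : 0 < s) (ha : s < a) : Convex ℝ (Reg s a) := by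
  have h1 := pos1 hs ha
  have h2 := pos2 hs ha
  intro x hx y hy u v hu hv huv
  have hx' : (a ^ 2 - s ^ 2) * x 0 ^ 2 + (a ^ 2 + s ^ 2) * x 1 ^ 2 ≤ a ^ 2 * (a ^ 2 - s ^ 2) := hx
  have hy' : (a ^ 2 - s ^ 2) * y 0 ^ 2 + (a ^ 2 + s ^ 2) * y 1 ^ 2 ≤ a ^ 2 * (a ^ 2 - s ^ 2) := hy
  change (a ^ 2 - s ^ 2) * (u • x + v • y) 0 ^ 2 + (a ^ 2 + s ^ 2) * (u • x + v • y) 1 ^ 2 ≤
    a ^ 2 * (a ^ 2 - s ^ 2)
  simp only [PiLp.add_apply, PiLp.smul_apply, smul_eq_mul]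
  have hv' : v = 1 - u := by linarith
  subst hv'
  have h3 : 0 ≤ u * (1 - u) := mul_nonneg hu hv
  have e1 := mul_le_mul_of_nonneg_left hx' hu
  have e2 := mul_le_mul_of_nonneg_left hy' hv
  have e3 := mul_nonneg h1.le (mul_nonneg h3 (sq_nonneg (x 0 - y 0)))
  have e4 := mul_nonneg h2.le (mul_nonneg h3 (sq_nonneg (x 1 - y 1)))
  nlinarith [e1, e2, e3, e4]

private lemma reg_bounded {s a : ℝ} (hs : 0 < s) (ha : s < a) :
    Bornology.IsBounded (Reg s a) := by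
  have h1 := pos1 hs ha
  refine (Metric.isBounded_closedBall (x := (0 : EuclideanSpace ℝ (Fin 2))) (r := a)).subset ?_
  intro z hz
  have hz' : (a ^ 2 - s ^ 2) * z 0 ^ 2 + (a ^ 2 + s ^ 2) * z 1 ^ 2 ≤ a ^ 2 * (a ^ 2 - s ^ 2) := hz
  rw [mem_closedBall_zero_iff, EuclideanSpace.norm_eq, Fin.sum_univ_two]
  simp only [Real.norm_eq_abs, sq_abs]
  rw [show a = Real.sqrt (a ^ 2) by rw [Real.sqrt_sq (by linarith)]]
  apply Real.sqrt_le_sqrt
  have h2 : (a ^ 2 - s ^ 2) * (z 0 ^ 2 + z 1 ^ 2) ≤ (a ^ 2 - s ^ 2) * a ^ 2 := by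
    nlinarith [mul_nonneg (sq_nonneg s) (sq_nonneg (z 1))]
  exact le_of_mul_le_mul_left h2 h1

private lemma frontier_reg {s a : ℝ} {z : EuclideanSpace ℝ (Fin 2)} (hz : z ∈ frontier (Reg s a)) :
    (a ^ 2 - s ^ 2) * z 0 ^ 2 + (a ^ 2 + s ^ 2) * z 1 ^ 2 = a ^ 2 * (a ^ 2 - s ^ 2) :=
  frontier_le_subset_eq (F_cont s a) continuous_const hz

private lemma mem_int {s a : ℝ} {z : EuclideanSpace ℝ (Fin 2)}
    (hz : (a ^ 2 - s ^ 2) * z 0 ^ 2 + (a ^ 2 + s ^ 2) * z 1 ^ 2 < a ^ 2 * (a ^ 2 - s ^ 2)) :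
    z ∈ interior (Reg s a) := by
  have ho : IsOpen {w : EuclideanSpace ℝ (Fin 2) | F s a w < a ^ 2 * (a ^ 2 - s ^ 2)} :=
    isOpen_lt (F_cont s a) continuous_const
  exact interior_maximal (fun w (hw : F s a w < _) => le_of_lt hw) ho hz

/-- The algebraic heart: a chord through `(t, 0)` with `t ^ 2 = s ^ 2`. -/
private lemma key {s a t u v x0 x1 y0 y1 : ℝ} (hs : 0 < s) (ha : s < a) (ht : t ^ 2 = s ^ 2)
    (hu : 0 ≤ u) (hv : 0 ≤ v) (huv : u + v = 1)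
    (hx : (a ^ 2 - s ^ 2) * x0 ^ 2 + (a ^ 2 + s ^ 2) * x1 ^ 2 = a ^ 2 * (a ^ 2 - s ^ 2))
    (hy : (a ^ 2 - s ^ 2) * y0 ^ 2 + (a ^ 2 + s ^ 2) * y1 ^ 2 = a ^ 2 * (a ^ 2 - s ^ 2))
    (h0 : u * x0 + v * y0 = t) (h1 : u * x1 + v * y1 = 0) :
    ((x0 - t) ^ 2 + x1 ^ 2)⁻¹ + ((y0 - t) ^ 2 + y1 ^ 2)⁻¹ =
      2 * (a ^ 2 + s ^ 2) / (a ^ 2 - s ^ 2) ^ 2 := by
  have p1 := pos1 hs ha
  have p2 := pos2 hs ha
  set d : ℝ := a ^ 2 - s ^ 2 with hd
  set e : ℝ := a ^ 2 + s ^ 2 with he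
  have hA : a ^ 2 = d + s ^ 2 := by rw [hd]; ring
  have hed : e = d + 2 * s ^ 2 := by rw [he, hd]; ring
  obtain ⟨X, rfl⟩ : ∃ X, x0 = X + t := ⟨x0 - t, by ring⟩
  obtain ⟨Y, rfl⟩ : ∃ Y, y0 = Y + t := ⟨y0 - t, by ring⟩
  simp only [add_sub_cancel_right]
  have hv' : v = 1 - u := by linarith
  subst hv'
  have h0' : u * X + (1 - u) * Y = 0 := by linarith
  have hx' : d * X ^ 2 + e * x1 ^ 2 + 2 * d * (t * X) = d ^ 2 := by
    have : d * (X + t) ^ 2 = d * X ^ 2 + 2 * d * (t * X) + d * t ^ 2 := by ring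
    rw [this, ht] at hx
    rw [hA] at hx
    linarith
  have hy' : d * Y ^ 2 + e * y1 ^ 2 + 2 * d * (t * Y) = d ^ 2 := by
    have : d * (Y + t) ^ 2 = d * Y ^ 2 + 2 * d * (t * Y) + d * t ^ 2 := by ring
    rw [this, ht] at hy
    rw [hA] at hy
    linarith
  have hd2 : 0 < d ^ 2 := by positivity
  have ha0 : u ≠ 0 := by
    rintro rfl
    have e1 : Y = 0 := by linarith
    have e2 : y1 = 0 := by linarith
    rw [e1, e2] at hy'
    norm_num at hy'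
    linarith [hy', p1]
  have hb0 : (1 - u) ≠ 0 := by
    intro h
    have ha1 : u = 1 := by linarith
    subst ha1
    have e1 : X = 0 := by linarith
    have e2 : x1 = 0 := by linarith
    rw [e1, e2] at hx'
    norm_num at hx'
    linarith [hx', p1]
  have hapos : 0 < u := lt_of_le_of_ne hu (Ne.symm ha0)
  have hbpos : 0 < 1 - u := lt_of_le_of_ne hv (Ne.symm hb0)
  set k : ℝ := u / (1 - u) with hk
  have hkpos : 0 < k := div_pos hapos hbpos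
  have hY : Y = -(k * X) := by
    rw [hk]; field_simp; linarith
  have hy1 : y1 = -(k * x1) := by
    rw [hk]; field_simp; linarith
  rw [hY, hy1] at hy' ⊢
  set Q : ℝ := d * X ^ 2 + e * x1 ^ 2 with hQ
  have hsX : 2 * d * (t * X) = d ^ 2 - Q := by linarith
  have hfac : (k + 1) * (k * Q - d ^ 2) = 0 := by
    have h5 : k ^ 2 * Q - k * (2 * d * (t * X)) = d ^ 2 := by rw [hQ]; linarith
    rw [hsX] at h5
    linarith
  have hkQ : k * Q = d ^ 2 := by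
    rcases mul_eq_zero.mp hfac with h | h
    · linarith
    · linarith
  have hX2 : 4 * d ^ 2 * (s ^ 2 * X ^ 2) = (d ^ 2 - Q) ^ 2 := by
    rw [← hsX, ← ht]
    ring
  have hN : X ^ 2 + x1 ^ 2 = (d ^ 4 + Q ^ 2) / (2 * d ^ 2 * e) := by
    rw [eq_div_iff (by positivity)]
    have h6 : e * (X ^ 2 + x1 ^ 2) = Q + 2 * (s ^ 2 * X ^ 2) := by
      rw [hQ, hed]; ring
    have h7 : (X ^ 2 + x1 ^ 2) * (2 * d ^ 2 * e) = 2 * d ^ 2 * (e * (X ^ 2 + x1 ^ 2)) := by ring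
    rw [h7, h6]
    linear_combination hX2
  have hN2 : (-(k * X)) ^ 2 + (-(k * x1)) ^ 2 = k ^ 2 * (X ^ 2 + x1 ^ 2) := by ring
  rw [hN2, hN]
  have hQpos : 0 < Q := by
    by_contra h
    push Not at h
    have : k * Q ≤ 0 := mul_nonpos_of_nonneg_of_nonpos hkpos.le h
    linarith
  have hkQ' : k = d ^ 2 / Q := by
    rw [eq_div_iff hQpos.ne']; exact hkQ
  rw [hkQ']
  have h81 : (d ^ 4 + Q ^ 2) ≠ 0 := by positivity
  field_simp

private lemma rpow_neg_two {r : ℝ} : Real.sqrt r ^ (-2 : ℝ) = (Real.sqrt r ^ 2)⁻¹ := by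
  rw [Real.rpow_neg (Real.sqrt_nonneg r)]
  norm_num

private lemma const_at {s a t : ℝ} (hs : 0 < s) (ha : s < a) (ht : t ^ 2 = s ^ 2) :
    ∀ x ∈ frontier (Reg s a), ∀ y ∈ frontier (Reg s a),
      (!₂[t, 0] : EuclideanSpace ℝ (Fin 2)) ∈ segment ℝ x y →
      dist x (!₂[t, 0] : EuclideanSpace ℝ (Fin 2)) ^ (-2 : ℝ) +
        dist y (!₂[t, 0] : EuclideanSpace ℝ (Fin 2)) ^ (-2 : ℝ) =
          2 * (a ^ 2 + s ^ 2) / (a ^ 2 - s ^ 2) ^ 2 := by
  intro x hx y hy hseg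
  obtain ⟨u, v, hu, hv, huv, hp⟩ := hseg
  have h0 : u * x 0 + v * y 0 = t := by
    have := congrArg (fun z : EuclideanSpace ℝ (Fin 2) => z 0) hp
    simpa using this
  have h1 : u * x 1 + v * y 1 = 0 := by
    have := congrArg (fun z : EuclideanSpace ℝ (Fin 2) => z 1) hp
    simpa using this
  have hkey := key hs ha ht hu hv huv (frontier_reg hx) (frontier_reg hy) h0 h1
  rw [EuclideanSpace.dist_eq, EuclideanSpace.dist_eq, rpow_neg_two, rpow_neg_two,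
    Real.sq_sqrt (by positivity), Real.sq_sqrt (by positivity)]
  simp only [Fin.sum_univ_two, Real.dist_eq, sq_abs]
  simpa using hkey

private lemma mem_at {s a t : ℝ} (hs : 0 < s) (ha : s < a) (ht : t ^ 2 = s ^ 2) :
    (!₂[t, 0] : EuclideanSpace ℝ (Fin 2)) ∈ interior (Reg s a) := by
  have h1 := pos1 hs ha
  apply mem_int
  simp only [Matrix.cons_val_zero, Matrix.cons_val_one, ne_eq,
    OfNat.ofNat_ne_zero, not_false_eq_true, zero_pow, mul_zero, add_zero]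
  rw [ht]
  nlinarith

/-- For `0 < s < a` the ellipse with semi-axes `a` and `a √((a² - s²) / (a² + s²))` is a convex
curve with the two distinct `(-2)`-points `(s, 0)` and `(-s, 0)`. -/
theorem result (s a : ℝ) (hs : 0 < s) (ha : s < a) :
    Convex ℝ (Reg s a) ∧ IsCompact (Reg s a) ∧ (interior (Reg s a)).Nonempty ∧
      (!₂[s, 0] : EuclideanSpace ℝ (Fin 2)) ≠ !₂[-s, 0] ∧
      IsAlphaPoint (-2) (Reg s a) !₂[s, 0] ∧ IsAlphaPoint (-2) (Reg s a) !₂[-s, 0] := by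
  refine ⟨reg_convex hs ha, Metric.isCompact_of_isClosed_isBounded (reg_closed s a)
    (reg_bounded hs ha), ⟨_, mem_at hs ha rfl⟩, ?_, ⟨mem_at hs ha rfl, _, const_at hs ha rfl⟩,
    ⟨mem_at hs ha (by ring), _, const_at hs ha (by ring)⟩⟩
  intro h
  have := congrArg (fun z : EuclideanSpace ℝ (Fin 2) => z 0) h
  norm_num at this
  linarith

end Pool.Agent.Results.MP_8df793_gt.EllipseFamily
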